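import Pool.Agent.H7.ME.Stmts

/-!
Row CME of board `me17` (MP_fd41b2_co): triangles, all residues (as row CMC of `ld16`, helper19).
-/

set_option autoImplicit false

open Finset

namespace Pool.ME7

open Pool.Agent.H23.KT Pool.Agent.H46.KW Pool.KQ Pool.GT7 Pool.GU7 Pool.HZ7 Pool.IA7

theorem cme_thm : CMEStmt := by
  intro h1 h2 p r hp hr hg
  by_cases h : r ≤ p
  · exact h2 p r ⟨hg, h⟩
  · exact h1 p r ⟨by omega, hr⟩

end Pool.ME7
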