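import Pool.Agent.H7.ME.Stmts
import Pool.Agent.H52.LD.CMD

/-!
Row CMF of board `me17` (MP_fd41b2_co): all residues, larger cliques (as row CMD of `ld16`).
-/

set_option autoImplicit false

open Finset

namespace Pool.ME7

open Pool.Agent.H23.KT Pool.Agent.H46.KW Pool.KQ Pool.GT7 Pool.GU7 Pool.HZ7 Pool.IA7

theorem cmf_thm : CMFStmt := by
  intro h1 h2 h3 h4 p w r hp2 hw1 hwp hr hs1 hs2
  by_cases hrp : r ≤ p
  · exact h4 h2 h3 p w r hw1 hwp hrp hs1 hs2
  · have hr1 : r = p + 1 := by omega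
    subst hr1
    have s1 : p + 3 - (p + 1) = 2 := by omega
    rw [s1] at hs1
    have hw : w < p := by omega
    have hch := Pool.LD7.cmd_ch hw
    refine h1 p w (p + 1) ⟨hw1, hwp, le_rfl, hp2, ?_⟩
    rw [s1]
    have s2 : p + 1 - 1 = p := by omega
    rw [s2]
    obtain ⟨d, hd⟩ : ∃ d, p = w + 1 + d := ⟨p - (w + 1), by omega⟩
    have s3 : p - w = d + 1 := by omega
    rw [s3] at hch
    have e5 : (p + 2).choose (w + 1) * (2 * (p + 1)) =
        2 * ((p + 2).choose (w + 1) * (d + 1)) + (p + 2).choose (w + 1) * ((w + 1) * 2) := by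
      have : p + 1 = (d + 1) + (w + 1) := by omega
      rw [this]
      ring
    rw [e5]
    have e6 : 2 * (p + 1) * p.choose (w + 1) = 2 * ((p + 1) * p.choose (w + 1)) := by ring
    rw [e6]
    omega

end Pool.ME7
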